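import Mathlib

/-! Three-heap Blocking Nim with blocks on two heaps: recursion and band structure. -/

namespace Pool.Agent.MP_7e332b_co.H90

/-- `Move j a x y`: under the block that leaves heap `j` free and forbids the amount `a i` on each
of the other two heaps `i`, the mover may go from `x` to `y`. -/
def Move (j : Fin 3) (a : Fin 3 → ℕ+) (x y : Fin 3 → ℕ) : Prop :=
  ∃ (i : Fin 3) (r : ℕ), 0 < r ∧ r ≤ x i ∧ (i ≠ j → r ≠ (a i : ℕ)) ∧
    y = Function.update x i (x i - r)

/-- `BlockerWins x`: the player about to announce a block at `x` has a winning strategy. He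
announces a block `(j, a)`; whenever the opponent makes an allowed move `x → y` and announces any
block `(k, b)`, he has an allowed reply after which he wins again as the player about to block. -/
inductive BlockerWins : (Fin 3 → ℕ) → Prop
  | intro (x : Fin 3 → ℕ) (j : Fin 3) (a : Fin 3 → ℕ+)
      (reply : (Fin 3 → ℕ) → Fin 3 → (Fin 3 → ℕ+) → (Fin 3 → ℕ))
      (legal : ∀ y, Move j a x y → ∀ k b, Move k b y (reply y k b))
      (wins : ∀ y, Move j a x y → ∀ k b, BlockerWins (reply y k b)) : BlockerWins x

theorem sum_lt {j : Fin 3} {a : Fin 3 → ℕ+} {x y : Fin 3 → ℕ} (h : Move j a x y) :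
    ∑ i, y i < ∑ i, x i := by
  obtain ⟨i, r, h0, h1, -, rfl⟩ := h
  refine Finset.sum_lt_sum (fun k _ => ?_) ⟨i, Finset.mem_univ _, by simp; omega⟩
  by_cases hk : k = i
  · subst hk; simp
  · simp [Function.update_of_ne hk]

theorem wins_iff (x : Fin 3 → ℕ) :
    BlockerWins x ↔ ∃ j a, ∀ y, Move j a x y → ¬ BlockerWins y := by
  induction' hn : ∑ i, x i using Nat.strong_induction_on with n ih generalizing x
  constructor
  · rintro ⟨x, j, a, reply, legal, wins⟩
    refine ⟨j, a, fun y hy hw => ?_⟩
    obtain ⟨k, b, hb⟩ := (ih _ (hn ▸ sum_lt hy) y rfl).1 hw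
    exact hb _ (legal y hy k b) (wins y hy k b)
  · rintro ⟨j, a, h⟩
    have key : ∀ y k b, ∃ z, Move j a x y → Move k b y z ∧ BlockerWins z := by
      intro y k b
      by_cases hm : Move j a x y
      · by_contra hc
        exact h y hm ((ih _ (hn ▸ sum_lt hm) y rfl).2 ⟨k, b, fun z hz hw => hc ⟨z, fun _ => ⟨hz, hw⟩⟩⟩)
      · exact ⟨y, fun h => absurd h hm⟩
    choose reply hr using key
    exact .intro x j a reply (fun y hy k b => (hr y k b hy).1) (fun y hy k b => (hr y k b hy).2)

/-- No index below `n` satisfies `f`. -/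
def S0 (f : ℕ → Prop) (n : ℕ) : Prop := ∀ u < n, ¬ f u
/-- At most one index below `n` satisfies `f`. -/
def S1 (f : ℕ → Prop) (n : ℕ) : Prop := ∀ u < n, ∀ v < n, f u → f v → u = v

lemma S0.s1 {f : ℕ → Prop} {n : ℕ} (h : S0 f n) : S1 f n := fun u hu _ _ k _ => absurd k (h u hu)

lemma s1_iff {f : ℕ → Prop} {n : ℕ} :
    S1 f n ↔ ∃ a : ℕ+, ∀ r, 0 < r → r ≤ n → r ≠ a → ¬ f (n - r) := by
  constructor
  · intro h
    by_cases h0 : ∃ u < n, f u
    · obtain ⟨u, hu, hf⟩ := h0
      refine ⟨⟨n - u, by omega⟩, fun r h1 h2 h3 k => h3 ?_⟩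
      have := h u hu (n - r) (by omega) hf k
      simp only [PNat.mk_coe]; omega
    · exact ⟨1, fun r h1 h2 _ k => h0 ⟨n - r, by omega, k⟩⟩
  · rintro ⟨a, h⟩ u hu v hv fu fv
    have k : ∀ w < n, f w → n - w = a := fun w hw fw => by
      by_contra hc
      exact h (n - w) (by omega) (by omega) hc (by rwa [show n - (n - w) = w by omega])
    have := k u hu fu
    have := k v hv fv
    omega

lemma s0_iff {f : ℕ → Prop} {n : ℕ} : S0 f n ↔ ∀ r, 0 < r → r ≤ n → ¬ f (n - r) :=
  ⟨fun h r h1 h2 => h _ (by omega), fun h u hu k =>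
    h (n - u) (by omega) (by omega) (by rwa [show n - (n - u) = u by omega])⟩

lemma wins_iff' (x : Fin 3 → ℕ) : BlockerWins x ↔
    (∀ i, S1 (fun u => BlockerWins (Function.update x i u)) (x i)) ∧
      ∃ i, S0 (fun u => BlockerWins (Function.update x i u)) (x i) := by
  rw [wins_iff]
  constructor
  · rintro ⟨j, a, h⟩
    have hj : S0 (fun u => BlockerWins (Function.update x j u)) (x j) :=
      s0_iff.2 fun r h1 h2 => h _ ⟨j, r, h1, h2, fun k => absurd rfl k, rfl⟩
    exact ⟨fun i => s1_iff.2 ⟨a i, fun r h1 h2 h3 => h _ ⟨i, r, h1, h2, fun _ => h3, rfl⟩⟩, j, hj⟩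
  · rintro ⟨h, j, hj⟩
    choose a ha using fun i => s1_iff.1 (h i)
    refine ⟨j, a, ?_⟩
    rintro y ⟨i, r, h1, h2, h3, rfl⟩
    by_cases hi : i = j
    · subst hi; exact s0_iff.1 hj r h1 h2
    · exact ha i r h1 h2 (h3 hi)

/-- P-positions as a ternary relation. -/
def P (x y z : ℕ) : Prop := BlockerWins ![x, y, z]

lemma P_iff (x y z : ℕ) : P x y z ↔
    (S1 (fun u => P u y z) x ∧ S1 (fun u => P x u z) y ∧ S1 (fun u => P x y u) z) ∧
      (S0 (fun u => P u y z) x ∨ S0 (fun u => P x u z) y ∨ S0 (fun u => P x y u) z) := by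
  have e0 : ∀ u, Function.update ![x, y, z] 0 u = ![u, y, z] := fun u => by
    ext i; fin_cases i <;> simp
  have e1 : ∀ u, Function.update ![x, y, z] 1 u = ![x, u, z] := fun u => by
    ext i; fin_cases i <;> simp
  have e2 : ∀ u, Function.update ![x, y, z] 2 u = ![x, y, u] := fun u => by
    ext i; fin_cases i <;> simp
  unfold P
  rw [wins_iff', Fin.forall_fin_succ, Fin.forall_fin_two, Fin.exists_fin_succ, Fin.exists_fin_two]
  simp only [Fin.succ_zero_eq_one, Fin.succ_one_eq_two, e0, e1, e2]
  rfl

lemma S_congr {f g : ℕ → Prop} {n p : ℕ} (h : ∀ u < n, f u ↔ g (u + p)) (h' : ∀ w < p, ¬ g w) :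
    (S0 f n ↔ S0 g (n + p)) ∧ (S1 f n ↔ S1 g (n + p)) := by
  have k : ∀ w < n + p, g w → ∃ u < n, w = u + p ∧ f u := fun w hw gw => by
    have : p ≤ w := by by_contra hc; exact h' w (by omega) gw
    exact ⟨w - p, by omega, by omega, (h _ (by omega)).2 (by rwa [show w - p + p = w by omega])⟩
  refine ⟨⟨fun s w hw gw => ?_, fun s u hu fu => s (u + p) (by omega) ((h u hu).1 fu)⟩,
    ⟨fun s w hw w' hw' gw gw' => ?_, fun s u hu v hv fu fv => ?_⟩⟩
  · obtain ⟨u, hu, -, fu⟩ := k w hw gw
    exact s u hu fu
  · obtain ⟨u, hu, rfl, fu⟩ := k w hw gw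
    obtain ⟨v, hv, rfl, fv⟩ := k w' hw' gw'
    rw [s u hu v hv fu fv]
  · have := s (u + p) (by omega) (v + p) (by omega) ((h u hu).1 fu) ((h v hv).1 fv)
    omega

lemma S_congr0 {f g : ℕ → Prop} {n : ℕ} (h : ∀ u < n, f u ↔ g u) :
    (S0 f n ↔ S0 g n) ∧ (S1 f n ↔ S1 g n) := S_congr (p := 0) h (fun _ k => absurd k (by omega))

lemma P_swap : ∀ n x y z, x + y + z = n → ((P x y z ↔ P x z y) ∧ (P x y z ↔ P y x z)) := by
  intro n
  induction n using Nat.strong_induction_on with
  | _ n ih =>
    intro x y z h
    constructor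
    · have a := S_congr0 (n := x) fun u hu => (ih _ (by omega) u y z rfl).1
      have b := S_congr0 (n := y) fun u hu => (ih _ (by omega) x u z rfl).1
      have c := S_congr0 (n := z) fun u hu => (ih _ (by omega) x y u rfl).1
      rw [P_iff x y z, P_iff x z y, a.1, a.2, b.1, b.2, c.1, c.2]
      tauto
    · have a := S_congr0 (n := x) fun u hu => (ih _ (by omega) u y z rfl).2
      have b := S_congr0 (n := y) fun u hu => (ih _ (by omega) x u z rfl).2
      have c := S_congr0 (n := z) fun u hu => (ih _ (by omega) x y u rfl).2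
      rw [P_iff x y z, P_iff y x z, a.1, a.2, b.1, b.2, c.1, c.2]
      tauto

lemma P_swap23 {x y z : ℕ} (h : P x y z) : P x z y := (P_swap _ x y z rfl).1.1 h

open Classical in
lemma s1_card {f : ℕ → Prop} {n : ℕ} : S1 f n ↔ ((Finset.range n).filter f).card ≤ 1 := by
  rw [Finset.card_le_one]
  simp only [Finset.mem_filter, Finset.mem_range, S1]
  exact ⟨fun h a ha b hb => h a ha.1 b hb.1 ha.2 hb.2, fun h u hu v hv a b => h u ⟨hu, a⟩ v ⟨hv, b⟩⟩

open Classical in
lemma s0_card {f : ℕ → Prop} {n : ℕ} : S0 f n ↔ ((Finset.range n).filter f).card = 0 := by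
  rw [Finset.card_eq_zero, Finset.filter_eq_empty_iff]
  simp only [Finset.mem_range, S0]

open Classical in
lemma line_le_two (x y n : ℕ) : ((Finset.range n).filter fun z => P x y z).card ≤ 2 := by
  induction n with
  | zero => simp
  | succ n ih =>
    rw [Finset.range_add_one, Finset.filter_insert]
    split_ifs with h
    · have := s1_card.1 ((P_iff x y n).1 h).1.2.2
      exact (Finset.card_insert_le _ _).trans (by omega)
    · exact ih

open Classical in
lemma sum_le (n m : ℕ) (Q : ℕ → ℕ → Prop) (h : ∀ u, ((Finset.range m).filter (Q u)).card ≤ 2) :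
    ∑ w ∈ Finset.range m, ((Finset.range n).filter fun u => Q u w).card ≤ 2 * n := by
  simp only [Finset.card_filter]
  rw [Finset.sum_comm]
  refine (Finset.sum_le_sum (g := fun _ => 2) fun u _ => ?_).trans (by simp [mul_comm])
  have := h u
  rwa [Finset.card_filter] at this

open Classical in
theorem not_s1 (x y : ℕ) : ¬ S1 (fun u => P x y u) (x + y + 2) := by
  intro h2
  set m := x + y + 2
  have a := sum_le x m (fun u w => P u y w) (fun u => line_le_two u y m)
  have b := sum_le y m (fun u w => P x u w) (fun u => line_le_two x u m)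
  have c : ∀ w ∈ Finset.range m, 2 ≤ ((Finset.range x).filter fun u => P u y w).card +
      ((Finset.range y).filter fun u => P x u w).card + 2 * (if P x y w then 1 else 0) := by
    intro w hw
    split_ifs with hp
    · omega
    · rw [P_iff] at hp
      have k : S1 (fun u => P x y u) w := fun u hu v hv =>
        h2 u (by have := Finset.mem_range.1 hw; omega) v (by have := Finset.mem_range.1 hw; omega)
      by_contra hlt
      apply hp
      refine ⟨⟨s1_card.2 (by omega), s1_card.2 (by omega), k⟩, ?_⟩
      rw [s0_card, s0_card]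
      omega
  have d := Finset.sum_le_sum c
  rw [Finset.sum_add_distrib, Finset.sum_add_distrib, ← Finset.mul_sum, ← Finset.card_filter] at d
  have e := s1_card.1 h2
  simp only [Finset.sum_const, Finset.card_range, smul_eq_mul] at d
  omega

theorem band {x y z : ℕ} (h : P x y z) : z ≤ x + y + 1 := by
  by_contra hc
  have h1 := ((P_iff x y z).1 h).1.2.2
  exact not_s1 x y fun u hu v hv => h1 u (by omega) v (by omega)

theorem two (x y : ℕ) : ∃ u v, u < v ∧ ∀ z, P x y z ↔ z = u ∨ z = v := by
  have h := not_s1 x y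
  unfold S1 at h
  push Not at h
  have tri : ∀ a b c, a < b → b < c → P x y a → P x y b → ¬ P x y c := fun a b c h1 h2 pa pb pc => by
    have := ((P_iff x y c).1 pc).1.2.2 a (by omega) b h2 pa pb
    omega
  have key : ∀ u v, u < v → P x y u → P x y v → ∀ z, P x y z ↔ z = u ∨ z = v := by
    intro u v huv pu pv z
    refine ⟨fun pz => ?_, by rintro (rfl | rfl) <;> assumption⟩
    by_contra hc
    rcases lt_or_gt_of_ne (show z ≠ u by omega) with k | k
    · exact tri z u v k huv pz pu pv
    · rcases lt_or_gt_of_ne (show z ≠ v by omega) with k' | k'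
      · exact tri u z v k k' pu pz pv
      · exact tri u v z huv k' pu pv pz
  obtain ⟨u, -, v, -, pu, pv, hne⟩ := h
  rcases lt_or_gt_of_ne hne with k | k
  · exact ⟨u, v, k, key u v k pu pv⟩
  · exact ⟨v, u, k, key v u k pv pu⟩

theorem band' {x y z : ℕ} (h : P x y z) : y ≤ x + z + 1 := band (P_swap23 h)

theorem periodic (X : ℕ) :
    ∃ p N : ℕ, 0 < p ∧ ∀ x ≤ X, ∀ y, N ≤ y → ∀ z, P x y z ↔ P x (y + p) (z + p) := by
  let M := X + 1
  let F : ℕ → Fin (2 * M) → Fin M → Fin (2 * M + 1) → Prop :=
    fun t i x j => P x (t + i + M) (t + i + j)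
  obtain ⟨t, t', htt, hF⟩ : ∃ t t', t < t' ∧ F t = F t' := by
    obtain ⟨a, b, hab, h⟩ := Finite.exists_ne_map_eq_of_infinite F
    rcases lt_or_gt_of_ne hab with k | k
    exacts [⟨a, b, k, h⟩, ⟨b, a, k, h.symm⟩]
  obtain ⟨p, rfl⟩ : ∃ p, t' = t + p := ⟨t' - t, by omega⟩
  refine ⟨p, t + M, by omega, ?_⟩
  have main : ∀ y, t + M ≤ y → ∀ x ≤ X, ∀ z, P x y z ↔ P x (y + p) (z + p) := by
    intro y
    induction y using Nat.strong_induction_on with
    | _ y ihy =>
      intro hy x
      induction x using Nat.strong_induction_on with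
      | _ x ihx =>
        intro hx z
        induction z using Nat.strong_induction_on with
        | _ z ihz =>
          by_cases hb : y ≤ z + M ∧ z ≤ y + M
          swap
          · exact iff_of_false (fun k => by have := band k; have := band' k; omega)
              (fun k => by have := band k; have := band' k; omega)
          by_cases hw : y < t + M + 2 * M
          · have := congrFun (congrFun (congrFun hF ⟨y - (t + M), by omega⟩) ⟨x, by omega⟩)
              ⟨z + M - y, by omega⟩
            simp only [F] at this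
            rw [show t + (y - (t + M)) + M = y by omega,
              show t + (y - (t + M)) + (z + M - y) = z by omega,
              show t + p + (y - (t + M)) + M = y + p by omega,
              show t + p + (y - (t + M)) + (z + M - y) = z + p by omega] at this
            rw [this]
          have a := S_congr0 (n := x) fun u hu => ihx u hu (by omega) z
          have b := S_congr (f := fun u => P x u z) (g := fun u => P x u (z + p)) (n := y) (p := p)
            (fun u hu => by
              by_cases k : t + M ≤ u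
              · exact ihy u hu k x hx z
              · exact iff_of_false (fun k => by have := band k; omega)
                  (fun k => by have := band k; omega))
            (fun w hw k => by have := band k; omega)
          have c := S_congr (f := fun u => P x y u) (g := fun u => P x (y + p) u) (n := z) (p := p)
            ihz (fun w hw k => by have := band' k; omega)
          rw [P_iff x y z, P_iff x (y + p) (z + p), a.1, a.2, b.1, b.2, c.1, c.2]
  exact fun x hx y hy z => main y hy x hx z

end Pool.Agent.MP_7e332b_co.H90
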